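import Mathlib

/-!
# A piecewise Möbius expanding map with increasing branches whose planar natural extension domain
is disconnected
-/

set_option autoImplicit false

open Set Filter Topology MeasureTheory

namespace Pool.Agent.Results.MP_68eddd_an.DisconnectedDomain

/-- the Möbius map of the matrix with rows `(a, b)`, `(c, d)` -/
noncomputable def mob (a b c d x : ℝ) : ℝ := (a * x + b) / (c * x + d)

/-- the assumptions on the intervals `I_i = [l i, r i]` and on the matrices of the branches -/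
def Good (p q : ℝ) {n : ℕ} (l r a b c d : Fin n → ℝ) : Prop :=
  p < q ∧ (∀ i, l i < r i) ∧ (⋃ i, Icc (l i) (r i)) = Icc p q ∧
  (∀ i j, i ≠ j → volume (Icc (l i) (r i) ∩ Icc (l j) (r j)) = 0) ∧
  (∀ i, a i * d i - b i * c i = 1) ∧ (∀ i, 0 ≤ c i) ∧
  (∀ i, ∀ x ∈ Icc (l i) (r i), c i * x + d i ≠ 0) ∧
  (⋃ i, mob (a i) (b i) (c i) (d i) '' Icc (l i) (r i)) = Icc p q ∧
  (∃ k : ℝ, k < 1 ∧ ∀ i, ∀ x ∈ Icc (l i) (r i), (c i * x + d i) ^ 2 ≤ k) ∧
  (∃ C : ℝ, ∀ i, ∀ x ∈ Icc (l i) (r i), |c i * (c i * x + d i)| ≤ C)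

/-- the planar map of a branch -/
noncomputable def lift (a b c d : ℝ) (z : ℝ × ℝ) : ℝ × ℝ :=
  (mob a b c d z.1, (c * z.1 + d) ^ 2 * z.2 - c * (c * z.1 + d))

/-- the union of the images of the parts of `K` over the intervals `I_i` -/
def img {n : ℕ} (l r a b c d : Fin n → ℝ) (K : Set (ℝ × ℝ)) : Set (ℝ × ℝ) :=
  ⋃ i, lift (a i) (b i) (c i) (d i) '' (K ∩ Icc (l i) (r i) ×ˢ univ)

/-- `K` is compact, projects onto `[p,q]` and is the closure of the union of its images -/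
def IsDom (p q : ℝ) {n : ℕ} (l r a b c d : Fin n → ℝ) (K : Set (ℝ × ℝ)) : Prop :=
  IsCompact K ∧ Prod.fst '' K = Icc p q ∧ K = closure (img l r a b c d K)

/-! ### General facts -/

section general

variable {n : ℕ} {l r a b c d : Fin n → ℝ}

lemma img_mono {K L : Set (ℝ × ℝ)} (h : K ⊆ L) : img l r a b c d K ⊆ img l r a b c d L := by
  unfold img
  refine iUnion_mono fun i => image_mono (inter_subset_inter_left _ h)

lemma lift_cont (hd : ∀ i, ∀ x ∈ Icc (l i) (r i), c i * x + d i ≠ 0) (i : Fin n) :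
    ContinuousOn (lift (a i) (b i) (c i) (d i)) (Icc (l i) (r i) ×ˢ univ) := by
  unfold lift mob
  refine ContinuousOn.prodMk (ContinuousOn.div (by fun_prop) (by fun_prop) ?_) (by fun_prop)
  rintro z ⟨hz, _⟩
  exact hd i _ hz

lemma img_compact (hd : ∀ i, ∀ x ∈ Icc (l i) (r i), c i * x + d i ≠ 0) {K : Set (ℝ × ℝ)}
    (hK : IsCompact K) : IsCompact (img l r a b c d K) := by
  unfold img
  refine isCompact_iUnion fun i => ?_
  refine (hK.inter_right (isClosed_Icc.prod isClosed_univ)).image_of_continuousOn ?_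
  exact (lift_cont hd i).mono inter_subset_right

/-- the comparison of two sets -/
lemma sub_of {p q k : ℝ} (hk0 : 0 ≤ k) (hk : k < 1)
    (hek : ∀ i, ∀ x ∈ Icc (l i) (r i), (c i * x + d i) ^ 2 ≤ k)
    {K L : Set (ℝ × ℝ)} (hK : IsCompact K) (hK1 : ∀ z ∈ K, z.1 ∈ Icc p q)
    (hK2 : K ⊆ img l r a b c d K) (hL : IsCompact L) (hL1 : ∀ x ∈ Icc p q, ∃ y, (x, y) ∈ L)
    (hL2 : img l r a b c d L ⊆ L) : K ⊆ L := by
  obtain ⟨R1, hR1⟩ := hK.isBounded.exists_norm_le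
  obtain ⟨R2, hR2⟩ := hL.isBounded.exists_norm_le
  have key : ∀ m : ℕ, ∀ z ∈ K, ∃ y, (z.1, y) ∈ L ∧ |z.2 - y| ≤ (R1 + R2) * k ^ m := by
    intro m
    induction m with
    | zero =>
      intro z hz
      obtain ⟨y, hy⟩ := hL1 z.1 (hK1 z hz)
      refine ⟨y, hy, ?_⟩
      have h1 : |z.2| ≤ R1 := (norm_snd_le z).trans (hR1 z hz)
      have h2 : |y| ≤ R2 := (norm_snd_le (z.1, y)).trans (hR2 _ hy)
      calc |z.2 - y| ≤ |z.2| + |y| := abs_sub _ _
        _ ≤ (R1 + R2) * k ^ 0 := by rw [pow_zero, mul_one]; linarith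
    | succ m ih =>
      intro z hz
      obtain ⟨i, hi⟩ := mem_iUnion.1 (hK2 hz)
      obtain ⟨z', ⟨hz'K, hz'I⟩, rfl⟩ := hi
      obtain ⟨y, hy, hy2⟩ := ih z' hz'K
      have hm : lift (a i) (b i) (c i) (d i) (z'.1, y) ∈ L := by
        apply hL2
        exact mem_iUnion.2 ⟨i, _, ⟨hy, hz'I⟩, rfl⟩
      refine ⟨_, hm, ?_⟩
      have h1 : (lift (a i) (b i) (c i) (d i) z').2 - (lift (a i) (b i) (c i) (d i) (z'.1, y)).2 =
          (c i * z'.1 + d i) ^ 2 * (z'.2 - y) := by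
        simp only [lift]
        ring
      show |(lift (a i) (b i) (c i) (d i) z').2 - (lift (a i) (b i) (c i) (d i) (z'.1, y)).2| ≤ _
      rw [h1, abs_mul, abs_of_nonneg (sq_nonneg _)]
      calc (c i * z'.1 + d i) ^ 2 * |z'.2 - y| ≤ k * ((R1 + R2) * k ^ m) :=
            mul_le_mul (hek i _ hz'I.1) hy2 (abs_nonneg _) hk0
        _ = (R1 + R2) * k ^ (m + 1) := by ring
  intro z hz
  choose! y hy using fun m => key m z hz
  have h1 : Tendsto (fun m => (z.1, y m)) atTop (𝓝 z) := by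
    have h2 : Tendsto y atTop (𝓝 z.2) := by
      rw [tendsto_iff_norm_sub_tendsto_zero]
      have h3 : Tendsto (fun m : ℕ => (R1 + R2) * k ^ m) atTop (𝓝 0) := by
        have := (tendsto_pow_atTop_nhds_zero_of_lt_one hk0 hk).const_mul (R1 + R2)
        simpa using this
      refine squeeze_zero (fun m => norm_nonneg _) (fun m => ?_) h3
      rw [Real.norm_eq_abs, abs_sub_comm]
      exact (hy m).2
    have h4 := (tendsto_const_nhds (x := z.1)).prodMk_nhds h2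
    exact h4
  exact hL.isClosed.mem_of_tendsto h1 (Eventually.of_forall fun m => (hy m).1)

lemma lift_inj (hdet : ∀ i, a i * d i - b i * c i = 1)
    (hd : ∀ i, ∀ x ∈ Icc (l i) (r i), c i * x + d i ≠ 0) (i : Fin n) {z w : ℝ × ℝ}
    (hz : z.1 ∈ Icc (l i) (r i)) (hw : w.1 ∈ Icc (l i) (r i))
    (h : lift (a i) (b i) (c i) (d i) z = lift (a i) (b i) (c i) (d i) w) : z = w := by
  have h1 := congrArg Prod.fst h
  have h2 := congrArg Prod.snd h
  simp only [lift, mob] at h1 h2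
  rw [div_eq_div_iff (hd i _ hz) (hd i _ hw)] at h1
  have h3 : z.1 = w.1 := by
    have : (a i * d i - b i * c i) * (z.1 - w.1) = 0 := by linear_combination h1
    rw [hdet i, one_mul] at this
    linarith
  rw [h3] at h2
  have h4 : (c i * w.1 + d i) ^ 2 ≠ 0 := pow_ne_zero _ (hd i _ hw)
  have h5 : z.2 = w.2 := by
    have : (c i * w.1 + d i) ^ 2 * z.2 = (c i * w.1 + d i) ^ 2 * w.2 := by linarith
    exact mul_left_cancel₀ h4 this
  exact Prod.ext h3 h5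

/-- the maximal invariant subset -/
lemma inter_inv (hdet : ∀ i, a i * d i - b i * c i = 1)
    (hd : ∀ i, ∀ x ∈ Icc (l i) (r i), c i * x + d i ≠ 0) {S : Set (ℝ × ℝ)}
    (hS : img l r a b c d S ⊆ S) :
    img l r a b c d (⋂ m : ℕ, (img l r a b c d)^[m] S) = ⋂ m : ℕ, (img l r a b c d)^[m] S := by
  have hdec : ∀ m, (img l r a b c d)^[m + 1] S ⊆ (img l r a b c d)^[m] S := by
    intro m
    induction m with
    | zero => exact hS
    | succ m ih =>
      rw [Function.iterate_succ_apply', Function.iterate_succ_apply']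
      rw [Function.iterate_succ_apply'] at ih
      exact img_mono ih
  have hanti : Antitone fun m => (img l r a b c d)^[m] S := antitone_nat_of_succ_le hdec
  apply Subset.antisymm
  · intro z hz
    rw [mem_iInter]
    intro m
    have h1 : z ∈ (img l r a b c d)^[m + 1] S := by
      rw [Function.iterate_succ_apply']
      exact img_mono (iInter_subset _ m) hz
    exact hdec m h1
  · intro z hz
    rw [mem_iInter] at hz
    have h1 : ∀ m : ℕ, ∃ i, ∃ z', z' ∈ (img l r a b c d)^[m] S ∧ z'.1 ∈ Icc (l i) (r i) ∧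
        lift (a i) (b i) (c i) (d i) z' = z := by
      intro m
      have h2 := hz (m + 1)
      rw [Function.iterate_succ_apply'] at h2
      obtain ⟨i, hi⟩ := mem_iUnion.1 h2
      obtain ⟨z', ⟨h3, h4⟩, h5⟩ := hi
      exact ⟨i, z', h3, h4.1, h5⟩
    choose i hi using h1
    obtain ⟨j, hj⟩ := Finite.exists_infinite_fiber i
    have hinf : (i ⁻¹' {j}).Infinite := Set.infinite_coe_iff.1 hj
    obtain ⟨m0, hm0⟩ := hinf.nonempty
    obtain ⟨z0, hz0, hz0I, hz0l⟩ := hi m0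
    rw [show i m0 = j from hm0] at hz0I hz0l
    refine mem_iUnion.2 ⟨j, z0, ⟨?_, ⟨hz0I, mem_univ _⟩⟩, hz0l⟩
    rw [mem_iInter]
    intro m
    obtain ⟨m1, hm1, hmm1⟩ := hinf.exists_gt m
    obtain ⟨z1, hz1, hz1I, hz1l⟩ := hi m1
    rw [show i m1 = j from hm1] at hz1I hz1l
    have : z0 = z1 := lift_inj hdet hd j hz0I hz1I (hz0l.trans hz1l.symm)
    rw [this]
    exact hanti hmm1.le hz1

end general

/-! ### The example -/

/-- determinants -/
noncomputable def s1 : ℝ := √3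
noncomputable def s2 : ℝ := √672

lemma s1_pos : 0 < s1 := Real.sqrt_pos.2 (by norm_num)
lemma s2_pos : 0 < s2 := Real.sqrt_pos.2 (by norm_num)
lemma s1_sq : s1 * s1 = 3 := Real.mul_self_sqrt (by norm_num)
lemma s2_sq : s2 * s2 = 672 := Real.mul_self_sqrt (by norm_num)

noncomputable def l : Fin 4 → ℝ := ![0, 1 / 2, 1, 3 / 2]
noncomputable def r : Fin 4 → ℝ := ![1 / 2, 1, 3 / 2, 2]
noncomputable def a : Fin 4 → ℝ := ![3 / s1, 52 / s2, 4 / s1, 42 / s2]
noncomputable def b : Fin 4 → ℝ := ![0 / s1, -10 / s2, -3 / s1, -63 / s2]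
noncomputable def c : Fin 4 → ℝ := ![1 / s1, 10 / s2, 1 / s1, 10 / s2]
noncomputable def d : Fin 4 → ℝ := ![1 / s1, 11 / s2, 0 / s1, 1 / s2]

lemma mob_div {s : ℝ} (hs : s ≠ 0) (a b c d x : ℝ) :
    mob (a / s) (b / s) (c / s) (d / s) x = mob a b c d x := by
  unfold mob
  rw [div_mul_eq_mul_div, div_mul_eq_mul_div, ← add_div, ← add_div, div_div_div_cancel_right₀ hs]

lemma mob0 (x : ℝ) : mob (a 0) (b 0) (c 0) (d 0) x = 3 * x / (x + 1) := by
  have : mob (a 0) (b 0) (c 0) (d 0) x = mob (3 / s1) (0 / s1) (1 / s1) (1 / s1) x := rfl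
  rw [this, mob_div s1_pos.ne']
  unfold mob
  congr 1 <;> ring

lemma mob1 (x : ℝ) : mob (a 1) (b 1) (c 1) (d 1) x = (52 * x - 10) / (10 * x + 11) := by
  have : mob (a 1) (b 1) (c 1) (d 1) x = mob (52 / s2) (-10 / s2) (10 / s2) (11 / s2) x := rfl
  rw [this, mob_div s2_pos.ne']
  unfold mob
  congr 1

lemma mob2 (x : ℝ) : mob (a 2) (b 2) (c 2) (d 2) x = (4 * x - 3) / x := by
  have : mob (a 2) (b 2) (c 2) (d 2) x = mob (4 / s1) (-3 / s1) (1 / s1) (0 / s1) x := rfl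
  rw [this, mob_div s1_pos.ne']
  unfold mob
  congr 1
  ring

lemma mob3 (x : ℝ) : mob (a 3) (b 3) (c 3) (d 3) x = (42 * x - 63) / (10 * x + 1) := by
  have : mob (a 3) (b 3) (c 3) (d 3) x = mob (42 / s2) (-63 / s2) (10 / s2) (1 / s2) x := rfl
  rw [this, mob_div s2_pos.ne']
  unfold mob
  congr 1

lemma det_eq (i : Fin 4) : a i * d i - b i * c i = 1 := by
  have h1 := s1_sq
  have h2 := s2_sq
  have h3 := s1_pos.ne'
  have h4 := s2_pos.ne'
  fin_cases i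
  · show 3 / s1 * (1 / s1) - 0 / s1 * (1 / s1) = 1
    field_simp
    linarith
  · show 52 / s2 * (11 / s2) - -10 / s2 * (10 / s2) = 1
    field_simp
    linarith
  · show 4 / s1 * (0 / s1) - -3 / s1 * (1 / s1) = 1
    field_simp
    linarith
  · show 42 / s2 * (1 / s2) - -63 / s2 * (10 / s2) = 1
    field_simp
    linarith

/-- coordinates -/
noncomputable def th (x w : ℝ) : ℝ × ℝ := (x, 1 / (x - w))

lemma lift_th {a b c d x w : ℝ} (hdet : a * d - b * c = 1) (hx : c * x + d ≠ 0)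
    (hw : c * w + d ≠ 0) (hxw : x - w ≠ 0) :
    lift a b c d (th x w) = th (mob a b c d x) (mob a b c d w) := by
  unfold lift th
  refine Prod.ext rfl ?_
  show (c * x + d) ^ 2 * (1 / (x - w)) - c * (c * x + d) = 1 / (mob a b c d x - mob a b c d w)
  have h1 : mob a b c d x - mob a b c d w = (x - w) / ((c * x + d) * (c * w + d)) := by
    unfold mob
    rw [div_sub_div _ _ hx hw]
    congr 1
    linear_combination (x - w) * hdet
  rw [h1, one_div_div]
  field_simp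
  ring

lemma den_pos {i : Fin 4} {x : ℝ} (hx : l i ≤ x) : 0 < c i * x + d i := by
  have h3 := s1_pos
  have h4 := s2_pos
  fin_cases i
  · have hx' : (0 : ℝ) ≤ x := hx
    show 0 < 1 / s1 * x + 1 / s1
    positivity
  · have hx' : (1 / 2 : ℝ) ≤ x := hx
    have : 0 < x := by linarith
    show 0 < 10 / s2 * x + 11 / s2
    positivity
  · have hx' : (1 : ℝ) ≤ x := hx
    have : 0 < x := by linarith
    show 0 < 1 / s1 * x + 0 / s1
    have : 0 < 1 / s1 * x := by positivity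
    simpa using this
  · have hx' : (3 / 2 : ℝ) ≤ x := hx
    have : 0 < x := by linarith
    show 0 < 10 / s2 * x + 1 / s2
    positivity

lemma l_nonneg (i : Fin 4) : 0 ≤ l i := by
  fin_cases i
  · show (0 : ℝ) ≤ 0; norm_num
  · show (0 : ℝ) ≤ 1 / 2; norm_num
  · show (0 : ℝ) ≤ 1; norm_num
  · show (0 : ℝ) ≤ 3 / 2; norm_num

lemma r_le (i : Fin 4) : r i ≤ 2 := by
  fin_cases i
  · show (1 / 2 : ℝ) ≤ 2; norm_num
  · show (1 : ℝ) ≤ 2; norm_num
  · show (3 / 2 : ℝ) ≤ 2; norm_num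
  · show (2 : ℝ) ≤ 2; norm_num

/-- the first part of the enclosing set -/
def SA (x w : ℝ) : Prop :=
  (0 ≤ x ∧ x ≤ 1 ∧ 2 ≤ w ∧ w ≤ 21 / 10) ∨ (x = 1 ∧ 2 ≤ w ∧ w ≤ 12 / 5)

/-- the second part of the enclosing set -/
def SB (x w : ℝ) : Prop :=
  (1 ≤ x ∧ x ≤ 2 ∧ 3 ≤ w ∧ w ≤ 31 / 10) ∨ (x = 1 ∧ 5 / 2 ≤ w ∧ w ≤ 31 / 10) ∨
    (x = 2 ∧ 3 ≤ w ∧ w ≤ 18 / 5)

/-- the main part -/
def PP (x w : ℝ) : Prop :=
  (0 ≤ x ∧ x ≤ 1 ∧ 2 ≤ w ∧ w ≤ 21 / 10) ∨ (1 ≤ x ∧ x ≤ 2 ∧ 3 ≤ w ∧ w ≤ 31 / 10)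

lemma PP_sub {x w : ℝ} (h : PP x w) : SA x w ∨ SB x w := by
  rcases h with h | h
  · exact Or.inl (Or.inl h)
  · exact Or.inr (Or.inl h)

lemma S_lt {x w : ℝ} (h : SA x w ∨ SB x w) : x + 1 ≤ w ∧ 2 ≤ w ∧ w ≤ 18 / 5 ∧ 0 ≤ x ∧ x ≤ 2 := by
  rcases h with (h | h) | (h | h | h)
  · obtain ⟨h1, h2, h3, h4⟩ := h
    refine ⟨?_, ?_, ?_, ?_, ?_⟩ <;> linarith
  · obtain ⟨h1, h2, h3⟩ := h
    refine ⟨?_, ?_, ?_, ?_, ?_⟩ <;> linarith
  · obtain ⟨h1, h2, h3, h4⟩ := h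
    refine ⟨?_, ?_, ?_, ?_, ?_⟩ <;> linarith
  · obtain ⟨h1, h2, h3⟩ := h
    refine ⟨?_, ?_, ?_, ?_, ?_⟩ <;> linarith
  · obtain ⟨h1, h2, h3⟩ := h
    refine ⟨?_, ?_, ?_, ?_, ?_⟩ <;> linarith

/-- sets in the plane -/
def TA : Set (ℝ × ℝ) := {z | ∃ x w, SA x w ∧ z = th x w}
def TB : Set (ℝ × ℝ) := {z | ∃ x w, SB x w ∧ z = th x w}
def TP : Set (ℝ × ℝ) := {z | ∃ x w, PP x w ∧ z = th x w}

abbrev Im : Set (ℝ × ℝ) → Set (ℝ × ℝ) := img l r a b c d

/-- forward step -/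
lemma fwd {i : Fin 4} {x w : ℝ} (hx1 : l i ≤ x) (hx2 : x ≤ r i) (h : SA x w ∨ SB x w) :
    SA (mob (a i) (b i) (c i) (d i) x) (mob (a i) (b i) (c i) (d i) w) ∨
      SB (mob (a i) (b i) (c i) (d i) x) (mob (a i) (b i) (c i) (d i) w) := by
  fin_cases i
  · -- first branch
    have hx1' : (0 : ℝ) ≤ x := hx1
    have hx2' : x ≤ 1 / 2 := hx2
    show SA (mob (a 0) (b 0) (c 0) (d 0) x) (mob (a 0) (b 0) (c 0) (d 0) w) ∨
      SB (mob (a 0) (b 0) (c 0) (d 0) x) (mob (a 0) (b 0) (c 0) (d 0) w)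
    rw [mob0, mob0]
    have hw : 2 ≤ w ∧ w ≤ 21 / 10 := by
      rcases h with (h | h) | (h | h | h)
      · exact ⟨h.2.2.1, h.2.2.2⟩
      · exfalso; linarith [h.1]
      · exfalso; linarith [h.1]
      · exfalso; linarith [h.1]
      · exfalso; linarith [h.1]
    have hd1 : 0 < x + 1 := by linarith
    have hd2 : 0 < w + 1 := by linarith [hw.1]
    left; left
    refine ⟨by positivity, ?_, ?_, ?_⟩
    · rw [div_le_iff₀ hd1]; linarith
    · rw [le_div_iff₀ hd2]; linarith [hw.1]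
    · rw [div_le_iff₀ hd2]; linarith [hw.2]
  · have hx1' : (1 / 2 : ℝ) ≤ x := hx1
    have hx2' : x ≤ 1 := hx2
    show SA (mob (a 1) (b 1) (c 1) (d 1) x) (mob (a 1) (b 1) (c 1) (d 1) w) ∨
      SB (mob (a 1) (b 1) (c 1) (d 1) x) (mob (a 1) (b 1) (c 1) (d 1) w)
    rw [mob1, mob1]
    have hd1 : 0 < 10 * x + 11 := by linarith
    have hww := S_lt h
    have hd2 : 0 < 10 * w + 11 := by linarith [hww.2.1]
    right
    by_cases hx : x = 1
    · right; right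
      refine ⟨?_, ?_, ?_⟩
      · rw [hx]; norm_num
      · rw [le_div_iff₀ hd2]; linarith [hww.2.1]
      · have : w ≤ 31 / 10 := by
          rcases h with (h | h) | (h | h | h)
          · linarith [h.2.2.2]
          · linarith [h.2.2]
          · linarith [h.2.2.2]
          · linarith [h.2.2]
          · exfalso; linarith [h.1]
        rw [div_le_iff₀ hd2]; linarith
    · have hw : 2 ≤ w ∧ w ≤ 21 / 10 := by
        rcases h with (h | h) | (h | h | h)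
        · exact ⟨h.2.2.1, h.2.2.2⟩
        · exact absurd h.1 hx
        · exact absurd (le_antisymm hx2' h.1) hx
        · exact absurd h.1 hx
        · exfalso; linarith [h.1]
      left
      refine ⟨?_, ?_, ?_, ?_⟩
      · rw [le_div_iff₀ hd1]; linarith
      · rw [div_le_iff₀ hd1]; linarith
      · rw [le_div_iff₀ hd2]; linarith [hw.1]
      · rw [div_le_iff₀ hd2]; linarith [hw.2]
  · have hx1' : (1 : ℝ) ≤ x := hx1
    have hx2' : x ≤ 3 / 2 := hx2
    show SA (mob (a 2) (b 2) (c 2) (d 2) x) (mob (a 2) (b 2) (c 2) (d 2) w) ∨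
      SB (mob (a 2) (b 2) (c 2) (d 2) x) (mob (a 2) (b 2) (c 2) (d 2) w)
    rw [mob2, mob2]
    have hd1 : 0 < x := by linarith
    have hww := S_lt h
    have hd2 : 0 < w := by linarith [hww.2.1]
    right
    by_cases hx : x = 1
    · right; left
      have : w ≤ 31 / 10 := by
        rcases h with (h | h) | (h | h | h)
        · linarith [h.2.2.2]
        · linarith [h.2.2]
        · linarith [h.2.2.2]
        · linarith [h.2.2]
        · exfalso; linarith [h.1]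
      refine ⟨?_, ?_, ?_⟩
      · rw [hx]; norm_num
      · rw [le_div_iff₀ hd2]; linarith [hww.2.1]
      · rw [div_le_iff₀ hd2]; linarith
    · have hw : 3 ≤ w ∧ w ≤ 31 / 10 := by
        rcases h with (h | h) | (h | h | h)
        · exact absurd (le_antisymm h.2.1 hx1') hx
        · exact absurd h.1 hx
        · exact ⟨h.2.2.1, h.2.2.2⟩
        · exact absurd h.1 hx
        · exfalso; linarith [h.1]
      left
      refine ⟨?_, ?_, ?_, ?_⟩
      · rw [le_div_iff₀ hd1]; linarith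
      · rw [div_le_iff₀ hd1]; linarith
      · rw [le_div_iff₀ hd2]; linarith [hw.1]
      · rw [div_le_iff₀ hd2]; linarith [hw.2]
  · have hx1' : (3 / 2 : ℝ) ≤ x := hx1
    have hx2' : x ≤ 2 := hx2
    show SA (mob (a 3) (b 3) (c 3) (d 3) x) (mob (a 3) (b 3) (c 3) (d 3) w) ∨
      SB (mob (a 3) (b 3) (c 3) (d 3) x) (mob (a 3) (b 3) (c 3) (d 3) w)
    rw [mob3, mob3]
    have hd1 : 0 < 10 * x + 1 := by linarith
    have hww := S_lt h
    have hd2 : 0 < 10 * w + 1 := by linarith [hww.2.1]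
    left
    by_cases hx : x = 2
    · right
      have : 3 ≤ w := by
        rcases h with (h | h) | (h | h | h)
        · exfalso; linarith [h.2.1]
        · exfalso; linarith [h.1]
        · linarith [h.2.2.1]
        · exfalso; linarith [h.1]
        · linarith [h.2.1]
      refine ⟨?_, ?_, ?_⟩
      · rw [hx]; norm_num
      · rw [le_div_iff₀ hd2]; linarith
      · rw [div_le_iff₀ hd2]; linarith [hww.2.2.1]
    · have hw : 3 ≤ w ∧ w ≤ 31 / 10 := by
        rcases h with (h | h) | (h | h | h)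
        · exfalso; linarith [h.2.1]
        · exfalso; linarith [h.1]
        · exact ⟨h.2.2.1, h.2.2.2⟩
        · exfalso; linarith [h.1]
        · exact absurd h.1 hx
      left
      refine ⟨?_, ?_, ?_, ?_⟩
      · exact div_nonneg (by linarith) hd1.le
      · rw [div_le_iff₀ hd1]; linarith
      · rw [le_div_iff₀ hd2]; linarith [hw.1]
      · rw [div_le_iff₀ hd2]; linarith [hw.2]

lemma img_S : Im (TA ∪ TB) ⊆ TA ∪ TB := by
  intro z hz
  obtain ⟨i, hi⟩ := mem_iUnion.1 hz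
  obtain ⟨z', ⟨h1, h2⟩, rfl⟩ := hi
  have h3 : ∃ x w, (SA x w ∨ SB x w) ∧ z' = th x w := by
    rcases h1 with ⟨x, w, h, e⟩ | ⟨x, w, h, e⟩
    · exact ⟨x, w, Or.inl h, e⟩
    · exact ⟨x, w, Or.inr h, e⟩
  obtain ⟨x, w, h, rfl⟩ := h3
  have hx1 : l i ≤ x := h2.1.1
  have hx2 : x ≤ r i := h2.1.2
  have hlt := S_lt h
  rw [lift_th (det_eq i) (den_pos hx1).ne' (den_pos (i := i) (by linarith [hlt.1])).ne'
    (by intro h0; linarith [hlt.1])]
  rcases fwd hx1 hx2 h with h4 | h4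
  · exact Or.inl ⟨_, _, h4, rfl⟩
  · exact Or.inr ⟨_, _, h4, rfl⟩

/-- backward step -/
lemma bwd {x w : ℝ} (h : PP x w) : ∃ i : Fin 4, ∃ x' w', l i ≤ x' ∧ x' ≤ r i ∧ PP x' w' ∧
    mob (a i) (b i) (c i) (d i) x' = x ∧ mob (a i) (b i) (c i) (d i) w' = w := by
  rcases h with ⟨h1, h2, h3, h4⟩ | ⟨h1, h2, h3, h4⟩
  · by_cases hw : w ≤ 63 / 31
    · have e1 : 0 < 3 - x := by linarith
      have e2 : 0 < 3 - w := by linarith
      refine ⟨0, x / (3 - x), w / (3 - w), ?_, ?_, Or.inl ⟨?_, ?_, ?_, ?_⟩, ?_, ?_⟩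
      · show 0 ≤ x / (3 - x)
        positivity
      · show x / (3 - x) ≤ 1 / 2
        rw [div_le_iff₀ e1]; linarith
      · positivity
      · rw [div_le_iff₀ e1]; linarith
      · rw [le_div_iff₀ e2]; linarith
      · rw [div_le_iff₀ e2]; linarith
      · rw [mob0]
        have : x / (3 - x) + 1 = 3 / (3 - x) := by field_simp; ring
        rw [this]
        field_simp
      · rw [mob0]
        have : w / (3 - w) + 1 = 3 / (3 - w) := by field_simp; ring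
        rw [this]
        field_simp
    · rw [not_le] at hw
      have e1 : 0 < 42 - 10 * x := by linarith
      have e2 : 0 < 42 - 10 * w := by linarith
      refine ⟨3, (63 + x) / (42 - 10 * x), (63 + w) / (42 - 10 * w), ?_, ?_,
        Or.inr ⟨?_, ?_, ?_, ?_⟩, ?_, ?_⟩
      · show 3 / 2 ≤ (63 + x) / (42 - 10 * x)
        rw [le_div_iff₀ e1]; linarith
      · show (63 + x) / (42 - 10 * x) ≤ 2
        rw [div_le_iff₀ e1]; linarith
      · rw [le_div_iff₀ e1]; linarith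
      · rw [div_le_iff₀ e1]; linarith
      · rw [le_div_iff₀ e2]; linarith
      · rw [div_le_iff₀ e2]; linarith
      · rw [mob3]
        have : 10 * ((63 + x) / (42 - 10 * x)) + 1 = 672 / (42 - 10 * x) := by field_simp; ring
        have h5 : 42 * ((63 + x) / (42 - 10 * x)) - 63 = 672 * x / (42 - 10 * x) := by
          rw [eq_div_iff e1.ne']
          have h6 := div_mul_cancel₀ (63 + x) e1.ne'
          linear_combination 42 * h6
        rw [this, h5, div_div_div_cancel_right₀ e1.ne', mul_div_cancel_left₀ _ (by norm_num)]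
      · rw [mob3]
        have : 10 * ((63 + w) / (42 - 10 * w)) + 1 = 672 / (42 - 10 * w) := by field_simp; ring
        have h5 : 42 * ((63 + w) / (42 - 10 * w)) - 63 = 672 * w / (42 - 10 * w) := by
          rw [eq_div_iff e2.ne']
          have h6 := div_mul_cancel₀ (63 + w) e2.ne'
          linear_combination 42 * h6
        rw [this, h5, div_div_div_cancel_right₀ e2.ne', mul_div_cancel_left₀ _ (by norm_num)]
  · by_cases hw : w ≤ 94 / 31
    · have e1 : 0 < 4 - x := by linarith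
      have e2 : 0 < 4 - w := by linarith
      refine ⟨2, 3 / (4 - x), 3 / (4 - w), ?_, ?_, Or.inr ⟨?_, ?_, ?_, ?_⟩, ?_, ?_⟩
      · show 1 ≤ 3 / (4 - x)
        rw [le_div_iff₀ e1]; linarith
      · show 3 / (4 - x) ≤ 3 / 2
        rw [div_le_iff₀ e1]; linarith
      · rw [le_div_iff₀ e1]; linarith
      · rw [div_le_iff₀ e1]; linarith
      · rw [le_div_iff₀ e2]; linarith
      · rw [div_le_iff₀ e2]; linarith
      · rw [mob2]
        field_simp
        ring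
      · rw [mob2]
        field_simp
        ring
    · rw [not_le] at hw
      have e1 : 0 < 52 - 10 * x := by linarith
      have e2 : 0 < 52 - 10 * w := by linarith
      refine ⟨1, (10 + 11 * x) / (52 - 10 * x), (10 + 11 * w) / (52 - 10 * w), ?_, ?_,
        Or.inl ⟨?_, ?_, ?_, ?_⟩, ?_, ?_⟩
      · show 1 / 2 ≤ (10 + 11 * x) / (52 - 10 * x)
        rw [le_div_iff₀ e1]; linarith
      · show (10 + 11 * x) / (52 - 10 * x) ≤ 1
        rw [div_le_iff₀ e1]; linarith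
      · exact div_nonneg (by linarith) e1.le
      · rw [div_le_iff₀ e1]; linarith
      · rw [le_div_iff₀ e2]; linarith
      · rw [div_le_iff₀ e2]; linarith
      · rw [mob1]
        have : 10 * ((10 + 11 * x) / (52 - 10 * x)) + 11 = 672 / (52 - 10 * x) := by
          field_simp; ring
        rw [this]
        field_simp
        ring
      · rw [mob1]
        have : 10 * ((10 + 11 * w) / (52 - 10 * w)) + 11 = 672 / (52 - 10 * w) := by
          field_simp; ring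
        rw [this]
        field_simp
        ring

lemma img_P : TP ⊆ Im TP := by
  rintro _ ⟨x, w, h, rfl⟩
  obtain ⟨i, x', w', h1, h2, h3, h4, h5⟩ := bwd h
  refine mem_iUnion.2 ⟨i, th x' w', ⟨⟨x', w', h3, rfl⟩, ⟨⟨h1, h2⟩, mem_univ _⟩⟩, ?_⟩
  have hlt := S_lt (PP_sub h3)
  rw [lift_th (det_eq i) (den_pos h1).ne' (den_pos (i := i) (by linarith [hlt.1])).ne'
    (by intro h0; linarith [hlt.1]), h4, h5]

lemma TP_sub : TP ⊆ TA ∪ TB := by
  rintro _ ⟨x, w, h, rfl⟩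
  rcases PP_sub h with h | h
  · exact Or.inl ⟨x, w, h, rfl⟩
  · exact Or.inr ⟨x, w, h, rfl⟩

lemma compact_rect (x1 x2 w1 w2 : ℝ) (h : x2 < w1) :
    IsCompact {z : ℝ × ℝ | ∃ x w, (x1 ≤ x ∧ x ≤ x2 ∧ w1 ≤ w ∧ w ≤ w2) ∧ z = th x w} := by
  have h1 : {z : ℝ × ℝ | ∃ x w, (x1 ≤ x ∧ x ≤ x2 ∧ w1 ≤ w ∧ w ≤ w2) ∧ z = th x w} =
      (fun p : ℝ × ℝ => th p.1 p.2) '' (Icc x1 x2 ×ˢ Icc w1 w2) := by
    ext z
    constructor
    · rintro ⟨x, w, ⟨h1, h2, h3, h4⟩, rfl⟩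
      exact ⟨(x, w), ⟨⟨h1, h2⟩, ⟨h3, h4⟩⟩, rfl⟩
    · rintro ⟨⟨x, w⟩, ⟨⟨h1, h2⟩, ⟨h3, h4⟩⟩, rfl⟩
      exact ⟨x, w, ⟨h1, h2, h3, h4⟩, rfl⟩
  rw [h1]
  refine (isCompact_Icc.prod isCompact_Icc).image_of_continuousOn ?_
  unfold th
  refine ContinuousOn.prodMk (by fun_prop) (ContinuousOn.div (by fun_prop) (by fun_prop) ?_)
  rintro ⟨x, w⟩ ⟨hx, hw⟩
  have e1 : x ≤ x2 := hx.2
  have e2 : w1 ≤ w := hw.1
  intro h0
  have : x - w = 0 := h0
  linarith

lemma TA_compact : IsCompact TA := by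
  have h : TA = {z : ℝ × ℝ | ∃ x w, (0 ≤ x ∧ x ≤ 1 ∧ 2 ≤ w ∧ w ≤ 21 / 10) ∧ z = th x w} ∪
      {z : ℝ × ℝ | ∃ x w, (1 ≤ x ∧ x ≤ 1 ∧ 2 ≤ w ∧ w ≤ 12 / 5) ∧ z = th x w} := by
    ext z
    constructor
    · rintro ⟨x, w, h | h, rfl⟩
      · exact Or.inl ⟨x, w, h, rfl⟩
      · exact Or.inr ⟨x, w, ⟨h.1.ge, h.1.le, h.2⟩, rfl⟩
    · rintro (⟨x, w, h, rfl⟩ | ⟨x, w, h, rfl⟩)
      · exact ⟨x, w, Or.inl h, rfl⟩
      · exact ⟨x, w, Or.inr ⟨le_antisymm h.2.1 h.1, h.2.2⟩, rfl⟩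
  rw [h]
  exact (compact_rect _ _ _ _ (by norm_num)).union (compact_rect _ _ _ _ (by norm_num))

lemma TB_compact : IsCompact TB := by
  have h : TB = {z : ℝ × ℝ | ∃ x w, (1 ≤ x ∧ x ≤ 2 ∧ 3 ≤ w ∧ w ≤ 31 / 10) ∧ z = th x w} ∪
      ({z : ℝ × ℝ | ∃ x w, (1 ≤ x ∧ x ≤ 1 ∧ 5 / 2 ≤ w ∧ w ≤ 31 / 10) ∧ z = th x w} ∪
      {z : ℝ × ℝ | ∃ x w, (2 ≤ x ∧ x ≤ 2 ∧ 3 ≤ w ∧ w ≤ 18 / 5) ∧ z = th x w}) := by
    ext z
    constructor
    · rintro ⟨x, w, h | h | h, rfl⟩
      · exact Or.inl ⟨x, w, h, rfl⟩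
      · exact Or.inr (Or.inl ⟨x, w, ⟨h.1.ge, h.1.le, h.2⟩, rfl⟩)
      · exact Or.inr (Or.inr ⟨x, w, ⟨h.1.ge, h.1.le, h.2⟩, rfl⟩)
    · rintro (⟨x, w, h, rfl⟩ | ⟨x, w, h, rfl⟩ | ⟨x, w, h, rfl⟩)
      · exact ⟨x, w, Or.inl h, rfl⟩
      · exact ⟨x, w, Or.inr (Or.inl ⟨le_antisymm h.2.1 h.1, h.2.2⟩), rfl⟩
      · exact ⟨x, w, Or.inr (Or.inr ⟨le_antisymm h.2.1 h.1, h.2.2⟩), rfl⟩
  rw [h]
  exact (compact_rect _ _ _ _ (by norm_num)).union
    ((compact_rect _ _ _ _ (by norm_num)).union (compact_rect _ _ _ _ (by norm_num)))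

lemma TAB_disj {z : ℝ × ℝ} (h1 : z ∈ TA) (h2 : z ∈ TB) : False := by
  obtain ⟨x, w, h, e1⟩ := h1
  obtain ⟨x', w', h', e2⟩ := h2
  rw [e1] at e2
  have h3 : x = x' := congrArg Prod.fst e2
  have h4 : 1 / (x - w) = 1 / (x' - w') := congrArg Prod.snd e2
  have l1 := S_lt (Or.inl h)
  have l2 := S_lt (Or.inr h')
  rw [one_div, one_div, inv_inj] at h4
  have h5 : w = w' := by linarith
  subst h3
  subst h5
  rcases h with h | h <;> rcases h' with h' | h' | h'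
  · linarith [h.2.2.2, h'.2.2.1]
  · linarith [h.2.2.2, h'.2.1]
  · linarith [h.2.1, h'.1]
  · linarith [h.2.2, h'.2.2.1]
  · linarith [h.2.2, h'.2.1]
  · linarith [h.1, h'.1]

/-- the domain -/
noncomputable def K : Set (ℝ × ℝ) := ⋂ m : ℕ, Im^[m] (TA ∪ TB)

lemma hd4 : ∀ i : Fin 4, ∀ x ∈ Icc (l i) (r i), c i * x + d i ≠ 0 := fun _ _ hx => (den_pos hx.1).ne'

lemma K_inv : Im K = K := inter_inv det_eq hd4 img_S

lemma K_sub : K ⊆ TA ∪ TB := iInter_subset (fun m : ℕ => Im^[m] (TA ∪ TB)) 0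

lemma TP_K : TP ⊆ K := by
  refine subset_iInter fun m => ?_
  induction m with
  | zero => exact TP_sub
  | succ m ih =>
    rw [Function.iterate_succ_apply']
    exact img_P.trans (img_mono ih)

lemma K_compact : IsCompact K := by
  have h : ∀ m : ℕ, IsCompact (Im^[m] (TA ∪ TB)) := by
    intro m
    induction m with
    | zero => exact TA_compact.union TB_compact
    | succ m ih =>
      rw [Function.iterate_succ_apply']
      exact img_compact hd4 ih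
  have h2 : IsCompact ((Im^[0] (TA ∪ TB)) ∩ ⋂ m : ℕ, Im^[m] (TA ∪ TB)) :=
    (h 0).inter_right (isClosed_iInter fun m => (h m).isClosed)
  rwa [inter_eq_self_of_subset_right (iInter_subset (fun m : ℕ => Im^[m] (TA ∪ TB)) 0)] at h2

lemma K_fst : Prod.fst '' K = Icc 0 2 := by
  apply Subset.antisymm
  · rintro _ ⟨z, hz, rfl⟩
    rcases K_sub hz with ⟨x, w, h, rfl⟩ | ⟨x, w, h, rfl⟩
    · have := S_lt (Or.inl h)
      exact ⟨this.2.2.2.1, this.2.2.2.2⟩
    · have := S_lt (Or.inr h)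
      exact ⟨this.2.2.2.1, this.2.2.2.2⟩
  · intro x hx
    by_cases h : x ≤ 1
    · exact ⟨th x 2, TP_K ⟨x, 2, Or.inl ⟨hx.1, h, le_rfl, by norm_num⟩, rfl⟩, rfl⟩
    · exact ⟨th x 3, TP_K ⟨x, 3, Or.inr ⟨(not_le.1 h).le, hx.2, le_rfl, by norm_num⟩, rfl⟩, rfl⟩

lemma cases4 {P : Fin 4 → Prop} (h0 : P 0) (h1 : P 1) (h2 : P 2) (h3 : P 3) : ∀ i, P i := by
  intro i
  fin_cases i
  · exact h0
  · exact h1
  · exact h2
  · exact h3

lemma sq_le : ∀ i : Fin 4, ∀ x ∈ Icc (l i) (r i), (c i * x + d i) ^ 2 ≤ 3 / 4 := by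
  have h1 := s1_sq
  have h2 := s2_sq
  have h3 := s1_pos
  have h4 := s2_pos
  apply cases4
  · rintro x ⟨hx1, hx2⟩
    have hx1' : (0 : ℝ) ≤ x := hx1
    have hx2' : x ≤ 1 / 2 := hx2
    show (1 / s1 * x + 1 / s1) ^ 2 ≤ 3 / 4
    have e : (1 / s1 * x + 1 / s1) ^ 2 = (x + 1) ^ 2 / 3 := by
      rw [← h1]; field_simp
    rw [e]; nlinarith
  · rintro x ⟨hx1, hx2⟩
    have hx1' : (1 / 2 : ℝ) ≤ x := hx1
    have hx2' : x ≤ 1 := hx2
    show (10 / s2 * x + 11 / s2) ^ 2 ≤ 3 / 4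
    have e : (10 / s2 * x + 11 / s2) ^ 2 = (10 * x + 11) ^ 2 / 672 := by
      rw [← h2]; field_simp
    rw [e]; nlinarith
  · rintro x ⟨hx1, hx2⟩
    have hx1' : (1 : ℝ) ≤ x := hx1
    have hx2' : x ≤ 3 / 2 := hx2
    show (1 / s1 * x + 0 / s1) ^ 2 ≤ 3 / 4
    have e : (1 / s1 * x + 0 / s1) ^ 2 = x ^ 2 / 3 := by
      rw [← h1]; field_simp; ring
    rw [e]; nlinarith
  · rintro x ⟨hx1, hx2⟩
    have hx1' : (3 / 2 : ℝ) ≤ x := hx1
    have hx2' : x ≤ 2 := hx2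
    show (10 / s2 * x + 1 / s2) ^ 2 ≤ 3 / 4
    have e : (10 / s2 * x + 1 / s2) ^ 2 = (10 * x + 1) ^ 2 / 672 := by
      rw [← h2]; field_simp
    rw [e]; nlinarith

lemma c_nonneg : ∀ i : Fin 4, 0 ≤ c i := by
  have h3 := s1_pos
  have h4 := s2_pos
  apply cases4
  · show 0 ≤ 1 / s1; positivity
  · show 0 ≤ 10 / s2; positivity
  · show 0 ≤ 1 / s1; positivity
  · show 0 ≤ 10 / s2; positivity

lemma union_I : (⋃ i, Icc (l i) (r i)) = Icc 0 2 := by
  ext x
  rw [mem_iUnion]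
  constructor
  · rintro ⟨i, h1, h2⟩
    exact ⟨(l_nonneg i).trans h1, h2.trans (r_le i)⟩
  · rintro ⟨h1, h2⟩
    by_cases e1 : x ≤ 1 / 2
    · exact ⟨0, h1, e1⟩
    by_cases e2 : x ≤ 1
    · exact ⟨1, (not_le.1 e1).le, e2⟩
    by_cases e3 : x ≤ 3 / 2
    · exact ⟨2, (not_le.1 e2).le, e3⟩
    · exact ⟨3, (not_le.1 e3).le, h2⟩

lemma onto_I : (⋃ i, mob (a i) (b i) (c i) (d i) '' Icc (l i) (r i)) = Icc 0 2 := by
  ext x
  rw [mem_iUnion]
  constructor
  · rintro ⟨i, x', h1, rfl⟩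
    have h2 : x' ∈ Icc (0 : ℝ) 2 := ⟨(l_nonneg i).trans h1.1, h1.2.trans (r_le i)⟩
    have h3 : ∃ w, SA x' w ∨ SB x' w := by
      by_cases h : x' ≤ 1
      · exact ⟨2, Or.inl (Or.inl ⟨h2.1, h, le_rfl, by norm_num⟩)⟩
      · exact ⟨3, Or.inr (Or.inl ⟨(not_le.1 h).le, h2.2, le_rfl, by norm_num⟩)⟩
    obtain ⟨w, hw⟩ := h3
    have h4 := S_lt (fwd h1.1 h1.2 hw)
    exact ⟨h4.2.2.2.1, h4.2.2.2.2⟩
  · intro hx
    have h3 : ∃ w, PP x w := by
      by_cases h : x ≤ 1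
      · exact ⟨2, Or.inl ⟨hx.1, h, le_rfl, by norm_num⟩⟩
      · exact ⟨3, Or.inr ⟨(not_le.1 h).le, hx.2, le_rfl, by norm_num⟩⟩
    obtain ⟨w, hw⟩ := h3
    obtain ⟨i, x', w', h1, h2, _, h4, _⟩ := bwd hw
    exact ⟨i, x', ⟨h1, h2⟩, h4⟩

lemma overlap {i j : Fin 4} (hij : i ≠ j) : volume (Icc (l i) (r i) ∩ Icc (l j) (r j)) = 0 := by
  have key : ∀ i j : Fin 4, i < j → Icc (l i) (r i) ∩ Icc (l j) (r j) ⊆ {r i} := by
    intro i j h x hx
    have h1 : x ≤ r i := hx.1.2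
    have h2 : l j ≤ x := hx.2.1
    have h3 : r i ≤ l j := by
      fin_cases i <;> fin_cases j <;> first
        | exact absurd h (by decide)
        | (simp only [l, r]; norm_num)
    exact le_antisymm h1 (h3.trans h2)
  rcases lt_or_gt_of_ne hij with h | h
  · exact measure_mono_null (key i j h) (by simp)
  · rw [inter_comm]
    exact measure_mono_null (key j i h) (by simp)

lemma good : Good 0 2 l r a b c d := by
  refine ⟨by norm_num, ?_, union_I, fun i j => overlap, det_eq, c_nonneg, hd4, onto_I,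
    ⟨3 / 4, by norm_num, sq_le⟩, ⟨Finset.univ.sup' Finset.univ_nonempty c, ?_⟩⟩
  · apply cases4
    · show (0 : ℝ) < 1 / 2; norm_num
    · show (1 / 2 : ℝ) < 1; norm_num
    · show (1 : ℝ) < 3 / 2; norm_num
    · show (3 / 2 : ℝ) < 2; norm_num
  · intro i x hx
    have h1 := den_pos hx.1
    have h2 := c_nonneg i
    have h3 := sq_le i x hx
    rw [abs_of_nonneg (mul_nonneg h2 h1.le)]
    have h4 : c i * x + d i ≤ 1 := by nlinarith
    calc c i * (c i * x + d i) ≤ c i * 1 := mul_le_mul_of_nonneg_left h4 h2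
      _ = c i := mul_one _
      _ ≤ _ := Finset.le_sup' c (Finset.mem_univ i)

lemma K_vol : 0 < volume K := by
  set V : Set (ℝ × ℝ) := {z | 0 < z.1 ∧ z.1 < 1 ∧ z.2 * (z.1 - 2) < 1 ∧ 1 < z.2 * (z.1 - 21 / 10)}
    with hV
  have hVo : IsOpen V := by
    have o1 : IsOpen {z : ℝ × ℝ | 0 < z.1} := isOpen_lt (by fun_prop) (by fun_prop)
    have o2 : IsOpen {z : ℝ × ℝ | z.1 < 1} := isOpen_lt (by fun_prop) (by fun_prop)
    have o3 : IsOpen {z : ℝ × ℝ | z.2 * (z.1 - 2) < 1} := isOpen_lt (by fun_prop) (by fun_prop)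
    have o4 : IsOpen {z : ℝ × ℝ | 1 < z.2 * (z.1 - 21 / 10)} := isOpen_lt (by fun_prop) (by fun_prop)
    exact o1.inter (o2.inter (o3.inter o4))
  have hVn : V.Nonempty := by
    refine ⟨(1 / 2, -(13 / 20)), ?_, ?_, ?_, ?_⟩ <;> norm_num
  have hVK : V ⊆ K := by
    refine Subset.trans ?_ TP_K
    rintro ⟨x, y⟩ ⟨h1, h2, h3, h4⟩
    simp only at h1 h2 h3 h4
    have hy : y < 0 := by
      by_contra h
      rw [not_lt] at h
      nlinarith
    refine ⟨x, x - 1 / y, Or.inl ⟨h1.le, h2.le, ?_, ?_⟩, ?_⟩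
    · have : 1 / y ≤ x - 2 := by
        rw [div_le_iff_of_neg hy]; linarith
      linarith
    · have : x - 21 / 10 ≤ 1 / y := by
        rw [le_div_iff_of_neg hy]; linarith
      linarith
    · unfold th
      refine Prod.ext rfl ?_
      show y = 1 / (x - (x - 1 / y))
      rw [sub_sub_cancel, one_div_one_div]
  exact lt_of_lt_of_le (hVo.measure_pos volume hVn) (measure_mono hVK)

lemma K_dom : IsDom 0 2 l r a b c d K := by
  refine ⟨K_compact, K_fst, ?_⟩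
  have : img l r a b c d K = K := K_inv
  rw [this, K_compact.isClosed.closure_eq]

lemma K_unique {L : Set (ℝ × ℝ)} (hL : IsDom 0 2 l r a b c d L) : L = K := by
  have hLi : L = Im L := by
    have h1 := (img_compact (a := a) (b := b) hd4 hL.1).isClosed.closure_eq
    have h2 := hL.2.2
    rw [h1] at h2
    exact h2
  have p1 : ∀ {M : Set (ℝ × ℝ)}, IsDom 0 2 l r a b c d M → ∀ z ∈ M, z.1 ∈ Icc (0 : ℝ) 2 := by
    intro M hM z hz
    rw [← hM.2.1]
    exact ⟨z, hz, rfl⟩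
  have p2 : ∀ {M : Set (ℝ × ℝ)}, IsDom 0 2 l r a b c d M → ∀ x ∈ Icc (0 : ℝ) 2, ∃ y, (x, y) ∈ M := by
    intro M hM x hx
    rw [← hM.2.1] at hx
    obtain ⟨z, hz, rfl⟩ := hx
    exact ⟨z.2, hz⟩
  apply Subset.antisymm
  · exact sub_of (by norm_num) (by norm_num) sq_le hL.1 (p1 hL) hLi.subset K_compact (p2 K_dom)
      (show img l r a b c d K ⊆ K from K_inv.subset)
  · exact sub_of (by norm_num) (by norm_num) sq_le K_compact (p1 K_dom)
      (show K ⊆ img l r a b c d K from K_inv.symm.subset) hL.1 (p2 hL) hLi.symm.subset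

lemma K_disc : ¬ IsConnected K := by
  intro h
  have h1 := isPreconnected_closed_iff.1 h.isPreconnected TA TB TA_compact.isClosed
    TB_compact.isClosed K_sub
  have hA : (K ∩ TA).Nonempty := ⟨th 0 2, TP_K ⟨0, 2, Or.inl ⟨le_rfl, by norm_num, le_rfl,
    by norm_num⟩, rfl⟩, ⟨0, 2, Or.inl ⟨le_rfl, by norm_num, le_rfl, by norm_num⟩, rfl⟩⟩
  have hB : (K ∩ TB).Nonempty := ⟨th 2 3, TP_K ⟨2, 3, Or.inr ⟨by norm_num, le_rfl, le_rfl,
    by norm_num⟩, rfl⟩, ⟨2, 3, Or.inl ⟨by norm_num, le_rfl, le_rfl, by norm_num⟩, rfl⟩⟩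
  obtain ⟨z, _, hz1, hz2⟩ := h1 hA hB
  exact TAB_disj hz1 hz2

/-- There is a piecewise Möbius map of an interval, given by finitely many increasing branches,
all with matrices of determinant one and `c ≥ 0`, satisfying the expansion and boundedness
conditions, for which there is exactly one compact set `K` that projects onto the interval and is
the closure of the union of its images; this `K` has positive area, `K` minus its image has area
zero, and `K` is not connected. -/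
theorem result : ∃ (p q : ℝ) (n : ℕ) (l r a b c d : Fin n → ℝ), Good p q l r a b c d ∧
    ∃ K : Set (ℝ × ℝ), IsDom p q l r a b c d K ∧ (∀ L, IsDom p q l r a b c d L → L = K) ∧
      0 < volume K ∧ volume (K \ img l r a b c d K) = 0 ∧ ¬ IsConnected K := by
  refine ⟨0, 2, 4, l, r, a, b, c, d, good, K, K_dom, fun L => K_unique, K_vol, ?_, K_disc⟩
  have : img l r a b c d K = K := K_inv
  rw [this, sdiff_self]
  exact measure_empty

end Pool.Agent.Results.MP_68eddd_an.DisconnectedDomain
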